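import Pool.Agent.Q193.WF.Tools

/-!
# The core of the argument

`Y` compact Hausdorff, `T : S → Y → Y` an action, `X ⊆ Y` a minimal closed invariant set and
`Λ` an invariant positive normalised functional on `C(Y, ℝ)` concentrated on `X`.
-/

open Set Filter Topology MeasureTheory
open scoped NNReal

namespace Pool.Agent.Q193.WF

/-- The setting of the argument. -/
structure Sett (S Y : Type*) [Semigroup S] [TopologicalSpace Y] [CompactSpace Y]
    (T : S → Y → Y) (X : Set Y) (Λ : C(Y, ℝ) →ₗ[ℝ] ℝ) : Prop where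
  ne : Nonempty S
  mul : ∀ s t y, T (s * t) y = T s (T t y)
  cont : ∀ s, Continuous (T s)
  closed : IsClosed X
  nonempty : X.Nonempty
  inv : ∀ s, ∀ x ∈ X, T s x ∈ X
  minimal : ∀ X' : Set Y, IsClosed X' → X'.Nonempty → (∀ s, ∀ x ∈ X', T s x ∈ X') → X' ⊆ X → X' = X
  pos : ∀ h : C(Y, ℝ), (∀ y ∈ X, 0 ≤ h y) → 0 ≤ Λ h
  one : Λ 1 = 1
  Linv : ∀ s (h : C(Y, ℝ)), Λ (h.comp ⟨T s, cont s⟩) = Λ h

namespace Sett

variable {S Y : Type*} [Semigroup S] [TopologicalSpace Y] [CompactSpace Y]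
  {T : S → Y → Y} {X : Set Y} {Λ : C(Y, ℝ) →ₗ[ℝ] ℝ} (H : Sett S Y T X Λ)

include H

theorem mono (h₁ h₂ : C(Y, ℝ)) (h : ∀ y ∈ X, h₁ y ≤ h₂ y) : Λ h₁ ≤ Λ h₂ := by
  have := H.pos (h₂ - h₁) (fun y hy => by simpa using h y hy)
  rw [map_sub] at this
  linarith

theorem const (c : ℝ) : Λ (ContinuousMap.const Y c) = c := by
  have : ContinuousMap.const Y c = c • (1 : C(Y, ℝ)) := by ext; simp
  rw [this, map_smul, H.one]; simp

theorem zero_of (h : C(Y, ℝ)) (h0 : ∀ y ∈ X, h y = 0) : Λ h = 0 := by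
  apply le_antisymm
  · have := H.mono h 0 (fun y hy => (h0 y hy).le)
    simpa using this
  · have := H.mono 0 h (fun y hy => (h0 y hy).ge)
    simpa using this

theorem abs_le (h : C(Y, ℝ)) : |Λ h| ≤ ‖h‖ := by
  rw [_root_.abs_le]
  constructor
  · have := H.mono (ContinuousMap.const Y (-‖h‖)) h (fun y _ => by
      have := h.norm_coe_le_norm y
      rw [Real.norm_eq_abs, _root_.abs_le] at this
      exact this.1)
    rwa [H.const] at this
  · have := H.mono h (ContinuousMap.const Y ‖h‖) (fun y _ => by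
      have := h.norm_coe_le_norm y
      rw [Real.norm_eq_abs, _root_.abs_le] at this
      exact this.2)
    rwa [H.const] at this

theorem continuous : Continuous Λ := by
  have := (LinearMap.mkContinuous Λ 1 (fun h => by
    rw [one_mul]; exact H.abs_le h)).continuous
  exact this

/-- every nonempty relatively open set is visited from every point of `X` -/
theorem visits (U : Set Y) (hU : IsOpen U) (x : Y) (hx : x ∈ X) (hxU : x ∈ U) (y : Y)
    (hy : y ∈ X) : ∃ t : S, T t y ∈ U := by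
  have e : closure (range fun t => T t y) = X := by
    apply H.minimal _ isClosed_closure
    · obtain ⟨s⟩ := H.ne
      exact ⟨T s y, subset_closure ⟨s, rfl⟩⟩
    · intro s z hz
      have h1 : T s '' closure (range fun t => T t y) ⊆ closure (T s '' range fun t => T t y) :=
        image_closure_subset_closure_image (H.cont s)
      have h2 : T s '' (range fun t => T t y) ⊆ range fun t => T t y := by
        rintro _ ⟨_, ⟨t, rfl⟩, rfl⟩
        exact ⟨s * t, H.mul s t y⟩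
      exact closure_mono h2 (h1 ⟨z, hz, rfl⟩)
    · apply closure_minimal _ H.closed
      rintro _ ⟨t, rfl⟩
      exact H.inv t y hy
  rw [← e] at hx
  obtain ⟨z, hz, ⟨t, rfl⟩⟩ := mem_closure_iff.1 hx U hU hxU
  exact ⟨t, hz⟩

/-- `T s` maps `X` onto `X`. -/
theorem surj [T2Space Y] (s : S) (x : Y) (hx : x ∈ X) : ∃ x' ∈ X, T s x' = x := by
  by_contra hcon
  have hcl : IsClosed (T s '' X) := (H.closed.isCompact.image (H.cont s)).isClosed
  have hdis : Disjoint (T s '' X) {x} := by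
    rw [disjoint_singleton_right]
    rintro ⟨x', hx', h⟩
    exact hcon ⟨x', hx', h⟩
  obtain ⟨h, h0, h1, h01⟩ := exists_continuous_zero_one_of_isClosed hcl isClosed_singleton hdis
  have e1 : Λ h = 0 := by
    rw [← H.Linv s h]
    exact H.zero_of _ (fun y hy => h0 ⟨y, hy, rfl⟩)
  -- finitely many preimages of `{h > 1/2}` cover `X`
  have hx1 : h x = 1 := h1 rfl
  have hU : IsOpen {y | 1 / 2 < h y} := isOpen_lt continuous_const h.continuous
  obtain ⟨A, hA⟩ := H.closed.isCompact.elim_finite_subcover (fun t : S => T t ⁻¹' {y | 1 / 2 < h y})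
    (fun t => hU.preimage (H.cont t)) (by
      intro y hy
      obtain ⟨t, ht⟩ := H.visits _ hU x hx (by change 1 / 2 < h x; rw [hx1]; norm_num) y hy
      exact mem_iUnion.2 ⟨t, ht⟩)
  have h2 : Λ (∑ t ∈ A, h.comp ⟨T t, H.cont t⟩) = 0 := by
    rw [map_sum]
    apply Finset.sum_eq_zero
    intro t _
    rw [H.Linv t h, e1]
  have h3 : Λ (ContinuousMap.const Y (1 / 2)) ≤ Λ (∑ t ∈ A, h.comp ⟨T t, H.cont t⟩) := by
    apply H.mono
    intro y hy
    obtain ⟨t, ht, hty⟩ : ∃ t ∈ A, 1 / 2 < h (T t y) := by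
      have := hA hy
      simpa using this
    rw [ContinuousMap.coe_sum, Finset.sum_apply]
    calc (ContinuousMap.const Y (1 / 2 : ℝ)) y ≤ h (T t y) := hty.le
      _ = (h.comp ⟨T t, H.cont t⟩) y := rfl
      _ ≤ _ := Finset.single_le_sum (f := fun t => (h.comp ⟨T t, H.cont t⟩) y)
        (fun t _ => (h01 _).1) ht
  rw [h2, H.const] at h3
  norm_num at h3

end Sett

/-! ### the functions `φ_F` -/

section phi

variable {E : Type*} [AddCommGroup E] [Module ℝ E] [TopologicalSpace E]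

/-- `pF F v = max_{f ∈ F} |f v|` -/
noncomputable def pF (F : Finset (E →L[ℝ] ℝ)) (v : E) : ℝ := ((F.sup fun f => ‖f v‖₊ : ℝ≥0) : ℝ)

theorem pF_nonneg (F : Finset (E →L[ℝ] ℝ)) (v : E) : 0 ≤ pF F v := NNReal.coe_nonneg _

theorem abs_le_pF {F : Finset (E →L[ℝ] ℝ)} {f : E →L[ℝ] ℝ} (hf : f ∈ F) (v : E) :
    |f v| ≤ pF F v := by
  have : ‖f v‖₊ ≤ F.sup fun f => ‖f v‖₊ := Finset.le_sup (f := fun f => ‖f v‖₊) hf
  exact_mod_cast this

theorem pF_le {F : Finset (E →L[ℝ] ℝ)} {v : E} {c : ℝ} (hc : 0 ≤ c)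
    (h : ∀ f ∈ F, |f v| ≤ c) : pF F v ≤ c := by
  lift c to ℝ≥0 using hc
  rw [pF, NNReal.coe_le_coe]
  apply Finset.sup_le
  intro f hf
  exact_mod_cast h f hf

theorem pF_mono {F F' : Finset (E →L[ℝ] ℝ)} (h : F ⊆ F') (v : E) : pF F v ≤ pF F' v :=
  pF_le (pF_nonneg _ _) fun _ hf => abs_le_pF (h hf) v

theorem pF_le_seminorm [IsTopologicalAddGroup E] [ContinuousSMul ℝ E]
    {p : Seminorm ℝ E} {F : Finset (E →L[ℝ] ℝ)} (hF : ↑F ⊆ Pol p) (v : E) :
    pF F v ≤ p v := pF_le (apply_nonneg p v) fun f hf => hF hf v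

variable {Y : Type*} [TopologicalSpace Y] (j : Y → E) (hj : ∀ f : E →L[ℝ] ℝ, Continuous fun y => f (j y))

include hj in
theorem continuous_pF (F : Finset (E →L[ℝ] ℝ)) :
    Continuous fun z : Y × Y => pF F (j z.2 - j z.1) := by
  refine NNReal.continuous_coe.comp ?_
  apply Continuous.finset_sup_apply
  intro f _
  simp only [map_sub]
  exact (((hj f).comp continuous_snd).sub ((hj f).comp continuous_fst)).nnnorm

/-- the function `(x, y) ↦ pF F (j y - j x)` as an element of `C(Y × Y, ℝ)` -/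
noncomputable def DD (hj : ∀ f : E →L[ℝ] ℝ, Continuous fun y => f (j y))
    (F : Finset (E →L[ℝ] ℝ)) : C(Y × Y, ℝ) :=
  ⟨fun z => pF F (j z.2 - j z.1), continuous_pF j hj F⟩

/-- `φ_F(x) = Λ (y ↦ pF F (j y - j x))` -/
noncomputable def phi (Λ : C(Y, ℝ) →ₗ[ℝ] ℝ) (F : Finset (E →L[ℝ] ℝ)) (x : Y) : ℝ :=
  Λ ((DD j hj F).curry x)

@[simp] theorem DD_curry_apply (F : Finset (E →L[ℝ] ℝ)) (x y : Y) :
    (DD j hj F).curry x y = pF F (j y - j x) := rfl

end phi

section steps

variable {S Y : Type*} [Semigroup S] [TopologicalSpace Y] [CompactSpace Y] [T2Space Y]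
  {T : S → Y → Y} {X : Set Y} {Λ : C(Y, ℝ) →ₗ[ℝ] ℝ} (H : Sett S Y T X Λ)
  {E : Type*} [AddCommGroup E] [Module ℝ E] [TopologicalSpace E] [IsTopologicalAddGroup E]
  [ContinuousSMul ℝ E] (j : Y → E) (hj : ∀ f : E →L[ℝ] ℝ, Continuous fun y => f (j y))
  (p : Seminorm ℝ E) (hp : Continuous p)
  (hne : ∀ s x y, p (j (T s x) - j (T s y)) ≤ p (j x - j y))

include H in
omit [T2Space Y] [IsTopologicalAddGroup E] [ContinuousSMul ℝ E] in
theorem phi_continuous (F : Finset (E →L[ℝ] ℝ)) : Continuous (phi j hj Λ F) :=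
  H.continuous.comp (DD j hj F).curry.continuous

include H in
omit [T2Space Y] [IsTopologicalAddGroup E] [ContinuousSMul ℝ E] in
theorem phi_mono {F F' : Finset (E →L[ℝ] ℝ)} (h : F ⊆ F') (x : Y) :
    phi j hj Λ F x ≤ phi j hj Λ F' x := by
  apply H.mono
  intro y _
  exact pF_mono h _

include H hp hne in
omit [T2Space Y] in
theorem step1 (x : Y) (c : ℝ) (hc : ∀ F : Finset (E →L[ℝ] ℝ), ↑F ⊆ Pol p → phi j hj Λ F x ≤ c)
    (s : S) (F : Finset (E →L[ℝ] ℝ)) (hF : ↑F ⊆ Pol p) : phi j hj Λ F (T s x) ≤ c := by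
  classical
  apply le_of_forall_pos_le_add
  intro ε hε
  choose ff hff1 hff2 using fun y : Y => exists_pol p hp (j y - j x)
  have hcF : ∀ x : Y, Continuous fun w => pF F (j w - j x) := fun x =>
    (continuous_pF j hj F).comp (by fun_prop : Continuous fun w : Y => (x, w))
  have hopen : ∀ y : Y, IsOpen {w | pF F (j (T s w) - j (T s x)) < |ff y (j w - j x)| + ε} := by
    intro y
    apply isOpen_lt ((hcF (T s x)).comp (H.cont s))
    simp only [map_sub]
    exact (((hj (ff y)).sub continuous_const).abs).add continuous_const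
  obtain ⟨A, hA⟩ := CompactSpace.elim_nhds_subcover
    (fun y : Y => {w | pF F (j (T s w) - j (T s x)) < |ff y (j w - j x)| + ε}) (by
      intro y
      apply (hopen y).mem_nhds
      change pF F (j (T s y) - j (T s x)) < |ff y (j y - j x)| + ε
      rw [hff2 y, abs_of_nonneg (apply_nonneg p _)]
      have h1 := pF_le_seminorm hF (j (T s y) - j (T s x))
      have h2 := hne s y x
      linarith)
  have hA' : (↑(A.image ff) : Set (E →L[ℝ] ℝ)) ⊆ Pol p := by
    intro f hf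
    rw [Finset.coe_image] at hf
    obtain ⟨y, _, rfl⟩ := hf
    exact hff1 y
  have h3 := hc (A.image ff) hA'
  have h4 : phi j hj Λ F (T s x) ≤ phi j hj Λ (A.image ff) x + ε := by
    rw [phi, ← H.Linv s]
    have : phi j hj Λ (A.image ff) x + ε =
        Λ ((DD j hj (A.image ff)).curry x + ContinuousMap.const Y ε) := by
      rw [map_add, H.const]; rfl
    rw [this]
    apply H.mono
    intro w _
    have hw : w ∈ (⊤ : Set Y) := mem_univ w
    rw [← hA] at hw
    simp only [mem_iUnion, exists_prop] at hw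
    obtain ⟨y, hy, hwy⟩ := hw
    refine (le_of_lt hwy).trans ?_
    exact add_le_add_left (abs_le_pF (Finset.mem_image_of_mem ff hy) _) _
  linarith

include H hp hne in
omit [T2Space Y] in
theorem step2 (x : Y) (hx : x ∈ X) (c : ℝ)
    (hc : ∀ F : Finset (E →L[ℝ] ℝ), ↑F ⊆ Pol p → phi j hj Λ F x ≤ c)
    (y : Y) (hy : y ∈ X) (F : Finset (E →L[ℝ] ℝ)) (hF : ↑F ⊆ Pol p) : phi j hj Λ F y ≤ c := by
  let X' : Set Y := X ∩ ⋂ F ∈ {F : Finset (E →L[ℝ] ℝ) | ↑F ⊆ Pol p}, {y | phi j hj Λ F y ≤ c}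
  have e : X' = X := by
    apply H.minimal
    · apply H.closed.inter
      apply isClosed_biInter
      intro F _
      exact isClosed_le (phi_continuous H j hj F) continuous_const
    · refine ⟨x, hx, ?_⟩
      simp only [mem_iInter, mem_ofPred_eq]
      exact hc
    · rintro s z ⟨hz, hz'⟩
      refine ⟨H.inv s z hz, ?_⟩
      simp only [mem_iInter, mem_ofPred_eq] at hz' ⊢
      exact step1 H j hj p hp hne z c hz' s
    · exact inter_subset_left
  rw [← e] at hy
  have := hy.2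
  simp only [mem_iInter, mem_ofPred_eq] at this
  exact this F hF

include H hp hne in
omit [T2Space Y] in
/-- The function `sup_F φ_F` is constant on `X`, uniformly approximated by a single `φ_F`. -/
theorem step3 (M : ℝ) (hM : ∀ y, p (j y) ≤ M) : ∃ α : ℝ, 0 ≤ α ∧
    (∀ x ∈ X, ∀ F : Finset (E →L[ℝ] ℝ), ↑F ⊆ Pol p → phi j hj Λ F x ≤ α) ∧
    ∀ ε > 0, ∃ F : Finset (E →L[ℝ] ℝ), ↑F ⊆ Pol p ∧ ∀ x ∈ X, α - ε < phi j hj Λ F x := by
  classical
  obtain ⟨x₁, hx₁⟩ := H.nonempty
  let R : Set ℝ := {r | ∃ F : Finset (E →L[ℝ] ℝ), ↑F ⊆ Pol p ∧ phi j hj Λ F x₁ = r}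
  have hbd : BddAbove R := by
    refine ⟨M + M, ?_⟩
    rintro r ⟨F, hF, rfl⟩
    rw [← H.const (M + M)]
    apply H.mono
    intro y _
    refine (pF_le_seminorm hF _).trans ?_
    exact (map_sub_le_add p _ _).trans (add_le_add (hM y) (hM x₁))
  have hα : ∀ F : Finset (E →L[ℝ] ℝ), ↑F ⊆ Pol p → phi j hj Λ F x₁ ≤ sSup R :=
    fun F hF => le_csSup hbd ⟨F, hF, rfl⟩
  have hempty : (↑(∅ : Finset (E →L[ℝ] ℝ)) : Set (E →L[ℝ] ℝ)) ⊆ Pol p := by simp
  refine ⟨sSup R, ?_, ?_, ?_⟩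
  · refine le_trans ?_ (hα ∅ hempty)
    apply H.pos
    intro y _
    exact pF_nonneg _ _
  · intro x hx F hF
    exact step2 H j hj p hp hne x₁ hx₁ _ hα x hx F hF
  · intro ε hε
    have hex : ∀ x ∈ X, ∃ F : Finset (E →L[ℝ] ℝ), ↑F ⊆ Pol p ∧ sSup R - ε < phi j hj Λ F x := by
      intro x hx
      by_contra hcon
      push Not at hcon
      have h1 := step2 H j hj p hp hne x hx (sSup R - ε) hcon x₁ hx₁
      have h2 : sSup R ≤ sSup R - ε := by
        apply csSup_le (s := R) ⟨_, ∅, hempty, rfl⟩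
        rintro r ⟨F, hF, rfl⟩
        exact h1 F hF
      linarith
    choose! FF hFF1 hFF2 using hex
    obtain ⟨A, hA⟩ := H.closed.isCompact.elim_nhds_subcover'
      (fun x _ => {y | sSup R - ε < phi j hj Λ (FF x) y}) (by
        intro x hx
        exact (isOpen_lt continuous_const (phi_continuous H j hj _)).mem_nhds (hFF2 x hx))
    refine ⟨A.biUnion fun x => FF x.1, ?_, ?_⟩
    · intro f hf
      simp only [Finset.coe_biUnion, mem_iUnion, exists_prop] at hf
      obtain ⟨x, _, hx⟩ := hf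
      exact hFF1 x.1 x.2 hx
    · intro y hy
      have := hA hy
      simp only [mem_iUnion, exists_prop] at this
      obtain ⟨x, hx, hxy⟩ := this
      exact lt_of_lt_of_le hxy (phi_mono H j hj
        (Finset.subset_biUnion_of_mem (fun x : X => FF x.1) hx) y)

end steps

end Pool.Agent.Q193.WF
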