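import Pool.Agent.Q193.WF.Weak

/-!
# The fixed point theorem
-/

open Set Filter Topology MeasureTheory
open scoped NNReal BoundedContinuousFunction

namespace Pool.Agent.Q193.WF

variable {E : Type*} [AddCommGroup E] [Module ℝ E] [TopologicalSpace E] [IsTopologicalAddGroup E]
  [ContinuousSMul ℝ E]

theorem alpha_lt [LocallyConvexSpace ℝ E] {S : Type*} [Semigroup S] (C : Set (WeakSpace ℝ E))
    [CompactSpace C] [T2Space C] {T : S → C → C} {X : Set C} {Λ : C(C, ℝ) →ₗ[ℝ] ℝ}
    (H : Sett S C T X Λ) (p : Seminorm ℝ E) (hp : Continuous p) (d : ℝ) (hd : 0 < d)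
    (hX : ∀ x ∈ X, ∀ y ∈ X, p (jj C y - jj C x) ≤ d) (α : ℝ)
    (hα : ∀ ε > 0, ∃ F : Finset (E →L[ℝ] ℝ), ↑F ⊆ Pol p ∧
      ∀ x ∈ X, α - ε < phi (jj C) (jj_cont C) Λ F x) : α < d := by
  borelize ↥C
  have hα' : ∀ n : ℕ, ∃ F : Finset (E →L[ℝ] ℝ), ↑F ⊆ Pol p ∧
      ∀ x ∈ X, α - 1 / ((n : ℝ) + 1) < phi (jj C) (jj_cont C) Λ F x :=
    fun n => hα _ (by positivity)
  choose F hF1 hF2 using hα'
  obtain ⟨c, hc, hcX⟩ := countable_net C p hp X (⋃ n, (F n : Set (E →L[ℝ] ℝ)))
    (countable_iUnion fun n => (F n).countable_toSet) (iUnion_subset hF1) (d / 4) (by positivity)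
  obtain ⟨μ, hμ1, hμ2, hμ3⟩ := exists_measure_pos Λ (fun h hh => H.pos h fun y _ => hh y) H.one
  have hμX : μ Xᶜ = 0 := measure_compl_eq_zero Λ μ hμ3 X H.closed H.zero_of
  let A : E → Set C := fun z => X ∩ {y | ∀ f ∈ ⋃ n, (F n : Set (E →L[ℝ] ℝ)), |f (jj C y - z)| ≤ d / 4}
  have hAcl : ∀ z, IsClosed (A z) := by
    intro z
    apply H.closed.inter
    have : {y : C | ∀ f ∈ ⋃ n, (F n : Set (E →L[ℝ] ℝ)), |f (jj C y - z)| ≤ d / 4} =
        ⋂ f ∈ ⋃ n, (F n : Set (E →L[ℝ] ℝ)), {y | |f (jj C y - z)| ≤ d / 4} := by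
      ext y; simp
    rw [this]
    apply isClosed_biInter
    intro f _
    simp only [map_sub]
    exact isClosed_le (((jj_cont C f).sub continuous_const).abs) continuous_const
  have hex : ∃ z ∈ c, μ (A z) ≠ 0 := by
    by_contra hcon
    push Not at hcon
    have h1 : μ (⋃ z ∈ c, A z) = 0 := (measure_biUnion_null_iff hc).2 hcon
    have h2 : μ X = 0 := measure_mono_null (fun y hy => by
      obtain ⟨z, hz, hzy⟩ := hcX y hy
      exact mem_biUnion hz ⟨hy, hzy⟩) h1
    have h3 : μ (univ : Set C) = 0 := by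
      rw [← union_compl_self X]
      exact measure_union_null h2 hμX
    rw [measure_univ] at h3
    exact one_ne_zero h3
  obtain ⟨z, hz, hAz⟩ := hex
  obtain ⟨x, hx⟩ := nonempty_of_measure_ne_zero hAz
  set m := μ.real (A z) with hm
  have hmpos : 0 < m := by
    rw [hm, measureReal_def]
    exact ENNReal.toReal_pos hAz (measure_ne_top _ _)
  have key : ∀ n, phi (jj C) (jj_cont C) Λ (F n) x ≤ d - d / 2 * m := by
    intro n
    rw [phi, ← hμ3]
    have hint : Integrable (fun y => ((DD (jj C) (jj_cont C) (F n)).curry x) y) μ :=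
      (ContinuousMap.continuous _).integrable_of_hasCompactSupport
        (HasCompactSupport.of_compactSpace _)
    have hmono : ∫ y, ((DD (jj C) (jj_cont C) (F n)).curry x) y ∂μ ≤
        ∫ y, (d - (A z).indicator (fun _ => d / 2) y) ∂μ := by
      apply integral_mono_ae hint
      · exact (integrable_const d).sub ((integrable_const _).indicator (hAcl z).measurableSet)
      · have hae : ∀ᵐ y ∂μ, y ∈ X := by
          rw [ae_iff]; exact hμX
        filter_upwards [hae] with y hy
        rw [DD_curry_apply]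
        by_cases hyA : y ∈ A z
        · rw [indicator_of_mem hyA]
          apply pF_le (by linarith)
          intro f hf
          have hfm : f ∈ ⋃ n, (F n : Set (E →L[ℝ] ℝ)) := mem_iUnion.2 ⟨n, hf⟩
          have h1 := hyA.2 f hfm
          have h2 := hx.2 f hfm
          have e : jj C y - jj C x = (jj C y - z) - (jj C x - z) := by abel
          rw [e, map_sub]
          rw [abs_le] at h1 h2 ⊢
          constructor <;> linarith
        · rw [indicator_of_notMem hyA, sub_zero]
          exact (pF_le_seminorm (hF1 n) _).trans (hX x hx.1 y hy)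
    refine hmono.trans (le_of_eq ?_)
    rw [integral_sub (integrable_const _)
      ((integrable_const _).indicator (hAcl z).measurableSet),
      integral_indicator_const _ (hAcl z).measurableSet]
    simp [← hm]
    ring
  have hlim : Tendsto (fun n : ℕ => α - 1 / ((n : ℝ) + 1)) atTop (𝓝 (α - 0)) :=
    tendsto_const_nhds.sub tendsto_one_div_add_atTop_nhds_zero_nat
  have hle : α - 0 ≤ d - d / 2 * m :=
    le_of_tendsto' hlim fun n => (hF2 n x hx.1).le.trans (key n)
  have : 0 < d / 2 * m := by positivity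
  linarith

/-- convexity inside `C` -/
def ConvIn (C : Set (WeakSpace ℝ E)) (K : Set C) : Prop :=
  ∀ x ∈ K, ∀ y ∈ K, ∀ a b : ℝ, 0 ≤ a → 0 ≤ b → a + b = 1 → ∀ z : C, z.1 = a • x.1 + b • y.1 →
    z ∈ K

theorem barycentre (C : Set (WeakSpace ℝ E)) (hCc : Convex ℝ C) [CompactSpace C] [T2Space C]
    [MeasurableSpace C] [BorelSpace C] (μ : Measure C) [IsProbabilityMeasure μ] (K : Set C)
    (hK : IsClosed K) (hKc : ConvIn C K) (hμ : μ Kᶜ = 0) :
    ∃ u ∈ K, ∀ f : E →L[ℝ] ℝ, f (jj C u) = ∫ y, f (jj C y) ∂μ := by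
  have key : (K ∩ ⋂ f : E →L[ℝ] ℝ, {u : C | f (jj C u) = ∫ y, f (jj C y) ∂μ}).Nonempty := by
    apply hK.isCompact.inter_iInter_nonempty
    · intro f
      exact isClosed_eq (jj_cont C f) continuous_const
    · intro G
      let π : C → (G → ℝ) := fun y f => f.1 (jj C y)
      have hπ : Continuous π := continuous_pi fun f => jj_cont C f.1
      have hconv : Convex ℝ (π '' K) := by
        rintro _ ⟨x, hx, rfl⟩ _ ⟨y, hy, rfl⟩ a b ha hb hab
        refine ⟨⟨a • x.1 + b • y.1, hCc x.2 y.2 ha hb hab⟩, hKc x hx y hy a b ha hb hab _ rfl, ?_⟩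
        funext f
        simp [π, jj]
      have hcl : IsClosed (π '' K) := (hK.isCompact.image hπ).isClosed
      have hmem : ∫ y, π y ∂μ ∈ π '' K := by
        apply hconv.integral_mem hcl
        · rw [ae_iff]
          refine measure_mono_null ?_ hμ
          intro y hy hyK
          exact hy ⟨y, hyK, rfl⟩
        · exact hπ.integrable_of_hasCompactSupport (HasCompactSupport.of_compactSpace _)
      obtain ⟨u, huK, hu⟩ := hmem
      refine ⟨u, huK, ?_⟩
      simp only [mem_iInter, mem_ofPred_eq]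
      intro f hf
      have h1 := congrFun hu ⟨f, hf⟩
      have h2 : (∫ y, π y ∂μ) ⟨f, hf⟩ = ∫ y, π y ⟨f, hf⟩ ∂μ := by
        have h3 : Integrable π μ :=
          hπ.integrable_of_hasCompactSupport (HasCompactSupport.of_compactSpace _)
        exact (ContinuousLinearMap.integral_comp_comm
          (ContinuousLinearMap.proj (R := ℝ) (φ := fun _ : G => ℝ) ⟨f, hf⟩) h3).symm
      rw [h2] at h1
      exact h1
  obtain ⟨u, huK, hu⟩ := key
  exact ⟨u, huK, fun f => mem_iInter.1 hu f⟩

end Pool.Agent.Q193.WF
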