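import Mathlib

/-!
# Separately continuous functions and continuous functionals on `C(X)`

If `X`, `G` are compact (`X` Hausdorff) and `F : G → C(X, ℝ)` is bounded and pointwise continuous,
then `L ∘ F` is continuous for every continuous linear functional `L` on `C(X, ℝ)`
(Grothendieck).
-/

open Set Filter Topology MeasureTheory
open scoped NNReal CompactlySupported

namespace Pool.Agent.Q193.WF

variable {X : Type*} [TopologicalSpace X]

section abs

variable [CompactSpace X]

/-- the total variation functional -/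
noncomputable def absF (L : C(X, ℝ) →L[ℝ] ℝ) (f : X → ℝ) : ℝ :=
  sSup {r | ∃ g : C(X, ℝ), (∀ x, |g x| ≤ f x) ∧ L g = r}

theorem absF_bdd (L : C(X, ℝ) →L[ℝ] ℝ) (f : C(X, ℝ)) :
    BddAbove {r | ∃ g : C(X, ℝ), (∀ x, |g x| ≤ f x) ∧ L g = r} := by
  refine ⟨‖L‖ * ‖f‖, ?_⟩
  rintro r ⟨g, hg, rfl⟩
  have h1 : ‖g‖ ≤ ‖f‖ := by
    rw [ContinuousMap.norm_le _ (norm_nonneg _)]
    intro x
    rw [Real.norm_eq_abs]
    exact (hg x).trans ((le_abs_self _).trans (f.norm_coe_le_norm x))
  calc L g ≤ ‖L g‖ := le_abs_self _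
    _ ≤ ‖L‖ * ‖g‖ := L.le_opNorm g
    _ ≤ ‖L‖ * ‖f‖ := by gcongr

theorem le_absF (L : C(X, ℝ) →L[ℝ] ℝ) (f g : C(X, ℝ)) (hg : ∀ x, |g x| ≤ f x) :
    L g ≤ absF L f := le_csSup (absF_bdd L f) ⟨g, hg, rfl⟩

theorem absF_le (L : C(X, ℝ) →L[ℝ] ℝ) (f : C(X, ℝ)) (hf : ∀ x, 0 ≤ f x) (c : ℝ)
    (h : ∀ g : C(X, ℝ), (∀ x, |g x| ≤ f x) → L g ≤ c) : absF L f ≤ c := by
  refine csSup_le ⟨L 0, 0, by simpa using hf, rfl⟩ ?_
  rintro r ⟨g, hg, rfl⟩
  exact h g hg

theorem absF_nonneg (L : C(X, ℝ) →L[ℝ] ℝ) (f : C(X, ℝ)) (hf : ∀ x, 0 ≤ f x) : 0 ≤ absF L f := by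
  have := le_absF L f 0 (by simpa using hf)
  simpa using this

theorem absF_add (L : C(X, ℝ) →L[ℝ] ℝ) (f₁ f₂ : C(X, ℝ)) (h₁ : ∀ x, 0 ≤ f₁ x)
    (h₂ : ∀ x, 0 ≤ f₂ x) : absF L (f₁ + f₂ : C(X, ℝ)) = absF L f₁ + absF L f₂ := by
  apply le_antisymm
  · refine absF_le L _ (fun x => add_nonneg (h₁ x) (h₂ x)) _ ?_
    intro g hg
    let g₁ : C(X, ℝ) := ⟨fun x => max (-f₁ x) (min (f₁ x) (g x)), by fun_prop⟩
    have hg₁ : ∀ x, |g₁ x| ≤ f₁ x := by
      intro x
      rw [abs_le]
      refine ⟨le_max_left _ _, max_le (by linarith [h₁ x]) (min_le_left _ _)⟩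
    have hg₂ : ∀ x, |(g - g₁) x| ≤ f₂ x := by
      intro x
      have := hg x
      rw [abs_le] at this ⊢
      simp only [ContinuousMap.coe_add, Pi.add_apply] at this
      change -f₂ x ≤ g x - max (-f₁ x) (min (f₁ x) (g x)) ∧
        g x - max (-f₁ x) (min (f₁ x) (g x)) ≤ f₂ x
      have a1 := h₁ x
      have a2 := h₂ x
      rcases le_total (f₁ x) (g x) with h | h
      · rw [min_eq_left h, max_eq_right (by linarith)]
        constructor <;> linarith
      · rw [min_eq_right h]
        rcases le_total (-f₁ x) (g x) with h' | h'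
        · rw [max_eq_right h']
          constructor <;> linarith
        · rw [max_eq_left h']
          constructor <;> linarith
    have e : g = g₁ + (g - g₁) := by abel
    rw [e, map_add]
    exact add_le_add (le_absF L f₁ g₁ hg₁) (le_absF L f₂ _ hg₂)
  · rw [← le_sub_iff_add_le]
    refine absF_le L _ h₁ _ ?_
    intro g₁ hg₁
    rw [le_sub_iff_add_le, add_comm, ← le_sub_iff_add_le]
    refine absF_le L _ h₂ _ ?_
    intro g₂ hg₂
    rw [le_sub_iff_add_le, add_comm, ← map_add]
    refine le_absF L _ _ ?_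
    intro x
    exact (abs_add_le _ _).trans (add_le_add (hg₁ x) (hg₂ x))

theorem absF_smul (L : C(X, ℝ) →L[ℝ] ℝ) (f : C(X, ℝ)) (h₁ : ∀ x, 0 ≤ f x) (c : ℝ) (hc : 0 ≤ c) :
    absF L (c • f : C(X, ℝ)) = c * absF L f := by
  rcases hc.eq_or_lt with rfl | hc
  · rw [zero_mul, zero_smul]
    apply le_antisymm
    · refine absF_le L _ (by simp) _ ?_
      intro g hg
      have : g = 0 := by
        ext x
        have := hg x
        simpa using this
      rw [this]; simp
    · exact absF_nonneg L _ (by simp)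
  · have key : ∀ (c : ℝ) (_ : 0 < c) (f : C(X, ℝ)) (_ : ∀ x, 0 ≤ f x),
        absF L (c • f : C(X, ℝ)) ≤ c * absF L f := by
      intro c hc f hf
      refine absF_le L _ (fun x => mul_nonneg hc.le (hf x)) _ ?_
      intro g hg
      have h2 := le_absF L f (c⁻¹ • g) (by
        intro x
        have := hg x
        simp only [ContinuousMap.coe_smul, Pi.smul_apply, smul_eq_mul] at this ⊢
        rw [abs_mul, abs_of_pos (inv_pos.2 hc), inv_mul_le_iff₀ hc]
        exact this)
      rw [map_smul, smul_eq_mul, inv_mul_le_iff₀ hc] at h2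
      exact h2
    apply le_antisymm (key c hc f h₁)
    have h3 := key c⁻¹ (inv_pos.2 hc) (c • f) (fun x => mul_nonneg hc.le (h₁ x))
    rw [smul_smul, inv_mul_cancel₀ hc.ne', one_smul] at h3
    rw [← le_inv_mul_iff₀ hc] 
    exact h3

end abs

section meas

variable [CompactSpace X] [T2Space X] [MeasurableSpace X] [BorelSpace X]

/-- The total variation functional as an `ℝ≥0`-linear functional. -/
noncomputable def absN (L : C(X, ℝ) →L[ℝ] ℝ) : C_c(X, ℝ≥0) →ₗ[ℝ≥0] ℝ≥0 where
  toFun f := ⟨absF L (⟨fun x => (f x : ℝ), by fun_prop⟩ : C(X, ℝ)),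
    absF_nonneg L _ (fun x => NNReal.coe_nonneg _)⟩
  map_add' f g := by
    apply NNReal.eq
    exact absF_add L (⟨fun x => (f x : ℝ), by fun_prop⟩ : C(X, ℝ))
      (⟨fun x => (g x : ℝ), by fun_prop⟩ : C(X, ℝ)) (fun x => NNReal.coe_nonneg _)
      (fun x => NNReal.coe_nonneg _)
  map_smul' c f := by
    apply NNReal.eq
    exact absF_smul L (⟨fun x => (f x : ℝ), by fun_prop⟩ : C(X, ℝ))
      (fun x => NNReal.coe_nonneg _) c (NNReal.coe_nonneg _)

theorem exists_measure_abs (L : C(X, ℝ) →L[ℝ] ℝ) :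
    ∃ ν : Measure X, IsFiniteMeasure ν ∧ ∀ h : C(X, ℝ), |L h| ≤ ∫ x, |h x| ∂ν := by
  refine ⟨NNRealRMK.rieszMeasure (absN L), inferInstance, ?_⟩
  intro h
  let f : C_c(X, ℝ≥0) := ⟨⟨fun x => ‖h x‖₊, by fun_prop⟩, HasCompactSupport.of_compactSpace _⟩
  have h1 := NNRealRMK.integral_rieszMeasure (absN L) f
  have h2 : ∀ x, ((f x : ℝ≥0) : ℝ) = |h x| := fun x => rfl
  simp only [h2] at h1
  rw [h1]
  change |L h| ≤ absF L _
  have h3 : ∀ h' : C(X, ℝ), (∀ x, |h' x| = |h x|) → L h' ≤
      absF L (⟨fun x => (f x : ℝ), by fun_prop⟩ : C(X, ℝ)) := by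
    intro h' e
    refine le_absF L _ h' ?_
    intro x
    rw [e x]
    exact (h2 x).ge
  rw [abs_le]
  constructor
  · have := h3 (-h) (by simp)
    rw [map_neg] at this
    linarith
  · exact h3 h (fun _ => rfl)

end meas

section groth

variable {G : Type*} [TopologicalSpace G] [CompactSpace G] [CompactSpace X] [T2Space X]

open Classical in
/-- The recursion of the diagonal argument. -/
noncomputable def stt (g₀ : G) (dn : Finset G → ℕ → Finset X) (pk : Finset X → ℕ → G) :
    ℕ → Finset G × Finset X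
  | 0 => ({g₀}, ∅)
  | n + 1 => (insert (pk ((stt g₀ dn pk n).2 ∪ dn (stt g₀ dn pk n).1 n) n) (stt g₀ dn pk n).1,
      (stt g₀ dn pk n).2 ∪ dn (stt g₀ dn pk n).1 n)

theorem continuous_functional (F : G → C(X, ℝ)) (hF : ∀ x, Continuous fun g => F g x) (M : ℝ)
    (hM : ∀ g x, |F g x| ≤ M) (L : C(X, ℝ) →L[ℝ] ℝ) : Continuous fun g => L (F g) := by
  classical
  borelize X
  obtain ⟨ν, hν, hLν⟩ := exists_measure_abs L
  rw [continuous_iff_continuousAt]
  intro g₀
  by_contra hcon
  rw [ContinuousAt, Metric.tendsto_nhds] at hcon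
  push Not at hcon
  obtain ⟨ε, hε, hfr⟩ := hcon
  -- finite dense sets
  have hdn : ∀ (A : Finset G) (n : ℕ), ∃ P : Finset X, ∀ x, ∃ p ∈ P, ∀ g ∈ A,
      |F g x - F g p| < 1 / ((n : ℝ) + 1) := by
    intro A n
    have hpos : (0 : ℝ) < 1 / ((n : ℝ) + 1) := by positivity
    obtain ⟨P, hP⟩ := CompactSpace.elim_nhds_subcover
      (fun p : X => {x | ∀ g ∈ A, |F g x - F g p| < 1 / ((n : ℝ) + 1)}) (by
        intro p
        apply IsOpen.mem_nhds
        · have : {x | ∀ g ∈ A, |F g x - F g p| < 1 / ((n : ℝ) + 1)} =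
              ⋂ g ∈ A, {x | |F g x - F g p| < 1 / ((n : ℝ) + 1)} := by
            ext x; simp
          rw [this]
          apply isOpen_biInter_finset
          intro g _
          exact isOpen_lt (by fun_prop) continuous_const
        · intro g _
          simpa using hpos)
    refine ⟨P, fun x => ?_⟩
    have : x ∈ (⊤ : Set X) := mem_univ x
    rw [← hP] at this
    simp only [mem_iUnion, exists_prop] at this
    exact this
  choose dn hdn using hdn
  -- the picks
  have hpk : ∀ (P : Finset X) (n : ℕ), ∃ g, ε ≤ dist (L (F g)) (L (F g₀)) ∧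
      ∀ p ∈ P, |F g p - F g₀ p| < 1 / ((n : ℝ) + 1) := by
    intro P n
    have hpos : (0 : ℝ) < 1 / ((n : ℝ) + 1) := by positivity
    have h1 : ∀ᶠ g in 𝓝 g₀, ∀ p ∈ P, |F g p - F g₀ p| < 1 / ((n : ℝ) + 1) := by
      rw [Filter.eventually_all_finset]
      intro p _
      have h2 : Tendsto (fun g => |F g p - F g₀ p|) (𝓝 g₀) (𝓝 0) := by
        have : Continuous fun g => |F g p - F g₀ p| := ((hF p).sub continuous_const).abs
        have := this.tendsto g₀
        simpa using this
      exact h2.eventually_lt_const hpos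
    obtain ⟨g, hg1, hg2⟩ := (hfr.and_eventually h1).exists
    exact ⟨g, hg1, hg2⟩
  choose pk hpk1 hpk2 using hpk
  let A : ℕ → Finset G := fun n => (stt g₀ dn pk n).1
  let P : ℕ → Finset X := fun n => (stt g₀ dn pk n).2
  let gs : ℕ → G := fun n => pk (P (n + 1)) n
  have hA : ∀ n, A (n + 1) = insert (gs n) (A n) := by
    intro n
    simp only [A, gs, P, stt]
  have hP : ∀ n, P (n + 1) = P n ∪ dn (A n) n := by
    intro n
    simp only [A, P, stt]
  have hAm : Monotone A := monotone_nat_of_le_succ (fun n => by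
    rw [hA]; exact Finset.subset_insert _ _)
  have hPm : Monotone P := monotone_nat_of_le_succ (fun n => by
    rw [hP]; exact Finset.subset_union_left)
  have hg₀ : ∀ n, g₀ ∈ A n := fun n => hAm (Nat.zero_le n) (by simp [A, stt])
  have hgs : ∀ i n, i < n → gs i ∈ A n := fun i n h => hAm (Nat.succ_le_of_lt h) (by
    rw [hA]; exact Finset.mem_insert_self _ _)
  have key : ∀ x, Tendsto (fun n => F (gs n) x) atTop (𝓝 (F g₀ x)) := by
    intro x
    have hex : ∀ k, ∃ p ∈ P (k + 1), ∀ g ∈ A k, |F g x - F g p| < 1 / ((k : ℝ) + 1) := by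
      intro k
      obtain ⟨p, hp, hp'⟩ := hdn (A k) k x
      exact ⟨p, by rw [hP]; exact Finset.mem_union_right _ hp, hp'⟩
    choose pt hpt hpt' using hex
    have hinv : Tendsto (fun k : ℕ => 1 / ((k : ℝ) + 1)) atTop (𝓝 0) :=
      tendsto_one_div_add_atTop_nhds_zero_nat
    rw [tendsto_iff_ultrafilter]
    intro U hU
    set g := (U.map gs).lim with hg
    set x' := (U.map pt).lim with hx'
    have hgl : Tendsto gs U (𝓝 g) := (U.map gs).le_nhds_lim
    have hxl : Tendsto pt U (𝓝 x') := (U.map pt).le_nhds_lim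
    -- values at `x'`
    have h1 : ∀ g', (∀ᶠ k in atTop, g' ∈ A k) → F g' x' = F g' x := by
      intro g' hg'
      have t1 : Tendsto (fun k => F g' (pt k)) U (𝓝 (F g' x')) :=
        ((F g').continuous.tendsto x').comp hxl
      have t2 : Tendsto (fun k => F g' (pt k)) U (𝓝 (F g' x)) := by
        apply Tendsto.mono_left _ hU
        rw [tendsto_iff_dist_tendsto_zero]
        refine squeeze_zero' (Eventually.of_forall fun _ => dist_nonneg) ?_ hinv
        filter_upwards [hg'] with k hk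
        rw [dist_comm, Real.dist_eq]
        exact (hpt' k g' hk).le
      exact tendsto_nhds_unique t1 t2
    have h2 : ∀ q, Tendsto (fun n => F (gs n) q) U (𝓝 (F g q)) := fun q =>
      ((hF q).tendsto g).comp hgl
    have h3 : ∀ k, F g (pt k) = F g₀ (pt k) := by
      intro k
      refine tendsto_nhds_unique (h2 (pt k)) ?_
      apply Tendsto.mono_left _ hU
      rw [tendsto_iff_dist_tendsto_zero]
      refine squeeze_zero' (Eventually.of_forall fun _ => dist_nonneg) ?_ hinv
      filter_upwards [eventually_ge_atTop k] with n hn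
      rw [Real.dist_eq]
      exact (hpk2 (P (n + 1)) n (pt k) (hPm (Nat.succ_le_succ hn) (hpt k))).le
    have h4 : F g x' = F g₀ x' := by
      have t1 : Tendsto (fun k => F g (pt k)) U (𝓝 (F g x')) :=
        ((F g).continuous.tendsto x').comp hxl
      have t2 : Tendsto (fun k => F g₀ (pt k)) U (𝓝 (F g₀ x')) :=
        ((F g₀).continuous.tendsto x').comp hxl
      simp only [h3] at t1
      exact tendsto_nhds_unique t1 t2
    have h5 : F g₀ x' = F g₀ x := h1 g₀ (Eventually.of_forall hg₀)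
    have h6 : ∀ i, F (gs i) x' = F (gs i) x := fun i =>
      h1 (gs i) (by filter_upwards [eventually_gt_atTop i] with k hk using hgs i k hk)
    have h7 := h2 x'
    simp only [h6] at h7
    rw [h4, h5] at h7
    exact h7
  have hlim : Tendsto (fun n => ∫ x, |(F (gs n) - F g₀) x| ∂ν) atTop (𝓝 (∫ x, (0 : ℝ) ∂ν)) := by
    refine tendsto_integral_of_dominated_convergence (fun _ => 2 * M) ?_ (integrable_const _) ?_ ?_
    · intro n
      exact (by fun_prop : Continuous fun x => |(F (gs n) - F g₀) x|).aestronglyMeasurable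
    · intro n
      refine Eventually.of_forall fun x => ?_
      rw [Real.norm_eq_abs, abs_abs, ContinuousMap.sub_apply]
      have a1 := hM (gs n) x
      have a2 := hM g₀ x
      rw [abs_le] at a1 a2 ⊢
      constructor <;> linarith
    · refine Eventually.of_forall fun x => ?_
      have := ((key x).sub_const (F g₀ x)).abs
      simpa using this
  rw [integral_zero] at hlim
  obtain ⟨n, hn⟩ := (hlim.eventually_lt_const hε).exists
  have h8 := hpk1 (P (n + 1)) n
  have h9 := hLν (F (gs n) - F g₀)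
  rw [map_sub] at h9
  rw [Real.dist_eq] at h8
  exact absurd (h8.trans h9) (not_le.2 hn)

end groth

end Pool.Agent.Q193.WF
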