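import Pool.Agent.Q193.WF.Final

/-!
# Property (F)
-/

open Set Filter Topology MeasureTheory
open scoped NNReal BoundedContinuousFunction

namespace Pool.Agent.Q193.WF

universe u v w

/-- Property (F) of a semitopological semigroup: every weakly separately continuous, weakly
quasi-equicontinuous, `Q`-nonexpansive representation of `S` on a nonempty weakly compact convex
subset `C` of a Hausdorff locally convex space `(E, Q)` has a common fixed point.  The set `C` is
given as a subset of `WeakSpace ℝ E`, i.e. of `E` with its weak topology. -/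
def PropertyF (S : Type u) [Semigroup S] [TopologicalSpace S] : Prop :=
  ∀ (E : Type v) [AddCommGroup E] [Module ℝ E] [TopologicalSpace E] [IsTopologicalAddGroup E]
    [ContinuousSMul ℝ E] [T2Space E] (ι : Type w) (q : SeminormFamily ℝ E ι) (_ : WithSeminorms q)
    (C : Set (WeakSpace ℝ E)) (_ : C.Nonempty) (_ : Convex ℝ C) (_ : IsCompact C)
    (T : S → C → C) (_ : ∀ s t x, T (s * t) x = T s (T t x))
    (_ : ∀ s, Continuous (T s)) (_ : ∀ x, Continuous fun s => T s x)
    (_ : ∀ g ∈ closure (Set.range T), Continuous g)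
    (_ : ∀ i s x y, q i ((toWeakSpace ℝ E).symm (T s x) - (toWeakSpace ℝ E).symm (T s y)) ≤
      q i ((toWeakSpace ℝ E).symm x - (toWeakSpace ℝ E).symm y)),
    ∃ x : C, ∀ s, T s x = x

theorem propertyF (S : Type u) [Semigroup S] [TopologicalSpace S] [SemitopSemigroup S]
    (m : WAP S →ₗ[ℝ] ℝ) (hm : IsLIM m) : PropertyF.{u, v, w} S := by
  intro E _ _ _ _ _ _ ι q hq C hCne hCconv hCc T hTm hT1 hT2 hT3 hne
  have hSne : Nonempty S := by
    by_contra hS
    have h0 : (⟨1, one_mem_WAP⟩ : WAP S) = 0 := by
      apply Subtype.ext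
      ext s
      exact (hS ⟨s⟩).elim
    have h1 := hm.one
    rw [h0, map_zero] at h1
    exact zero_ne_one h1
  have : LocallyConvexSpace ℝ E := hq.toLocallyConvexSpace
  have : CompactSpace C := isCompact_iff_compactSpace.1 hCc
  have : T2Space C := inferInstance
  -- the minimal convex set `K`
  obtain ⟨K, -, hKmin⟩ := exists_minimal' (Y := C)
    (fun K => (∀ s, ∀ x ∈ K, T s x ∈ K) ∧ ConvIn C K) (by
      intro c _ hc
      refine ⟨fun s x hx K hK => (hc K hK).1 s x (hx K hK), ?_⟩
      intro x hx y hy a b ha hb hab z hz K hK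
      exact (hc K hK).2 x (hx K hK) y (hy K hK) a b ha hb hab z hz) univ isClosed_univ
      (by obtain ⟨x, hx⟩ := hCne; exact ⟨⟨x, hx⟩, mem_univ _⟩)
      ⟨fun _ _ _ => mem_univ _, fun _ _ _ _ _ _ _ _ _ _ _ => mem_univ _⟩
  obtain ⟨hKcl, hKne, hKinv, hKconv⟩ := hKmin.prop
  -- the minimal set `X`
  obtain ⟨X, hXK, hXmin⟩ := exists_minimal' (Y := C) (fun X => ∀ s, ∀ x ∈ X, T s x ∈ X) (by
      intro c _ hc s x hx K hK
      exact hc K hK s x (hx K hK)) K hKcl hKne hKinv
  obtain ⟨hXcl, hXne, hXinv⟩ := hXmin.prop
  obtain ⟨x₀, hx₀⟩ := hXne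
  -- the functional
  let Λ : C(C, ℝ) →ₗ[ℝ] ℝ := m.comp ((orb T hT2 x₀).toLinearMap.codRestrict (WAP S)
    (fun h => orb_mem_WAP T hTm hT2 hT3 x₀ h))
  have hΛ : ∀ h, Λ h = m ⟨orb T hT2 x₀ h, orb_mem_WAP T hTm hT2 hT3 x₀ h⟩ := fun h => rfl
  have H : Sett S C T X Λ :=
    { ne := hSne
      mul := hTm
      cont := hT1
      closed := hXcl
      nonempty := ⟨x₀, hx₀⟩
      inv := hXinv
      minimal := fun X' h1 h2 h3 h4 => hXmin.eq_of_subset ⟨h1, h2, h3⟩ h4
      pos := by
        intro h hh
        rw [hΛ]
        exact hm.nonneg _ (fun t => hh _ (hXinv t x₀ hx₀))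
      one := by
        rw [hΛ, ← hm.one]
        rfl
      Linv := by
        intro s h
        rw [hΛ, hΛ]
        refine Eq.trans ?_ (hm.inv s _)
        refine congrArg m (Subtype.ext ?_)
        ext t
        simp [hTm] }
  have hne' : ∀ i s x y, q i (jj C (T s x) - jj C (T s y)) ≤ q i (jj C x - jj C y) := hne
  have hzero : ∀ i, ∀ x ∈ X, ∀ y ∈ X, q i (jj C x - jj C y) = 0 := by
    intro i
    have hp : Continuous (q i) := hq.continuous_seminorm i
    obtain ⟨M, hM⟩ := bounded C hCc hCconv (q i) hp
    obtain ⟨α, hα0, hα1, hα2⟩ := step3 H (jj C) (jj_cont C) (q i) hp (hne' i) M hM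
    let R : Set ℝ := {r | ∃ x ∈ X, ∃ y ∈ X, r = q i (jj C y - jj C x)}
    have hRbd : BddAbove R := by
      refine ⟨M + M, ?_⟩
      rintro r ⟨x, _, y, _, rfl⟩
      exact (map_sub_le_add _ _ _).trans (add_le_add (hM y) (hM x))
    have hd : ∀ x ∈ X, ∀ y ∈ X, q i (jj C y - jj C x) ≤ sSup R :=
      fun x hx y hy => le_csSup hRbd ⟨x, hx, y, hy, rfl⟩
    -- the barycentre argument
    have hle : ∀ x ∈ X, ∀ y ∈ X, q i (jj C y - jj C x) ≤ α := by
      borelize ↥C
      obtain ⟨μ, hμ1, hμ2, hμ3⟩ :=
        exists_measure_pos Λ (fun h hh => H.pos h fun y _ => hh y) H.one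
      have hμX : μ Xᶜ = 0 := measure_compl_eq_zero Λ μ hμ3 X H.closed H.zero_of
      have hμK : μ Kᶜ = 0 := measure_mono_null (compl_subset_compl.2 hXK) hμX
      obtain ⟨u, huK, hu⟩ := barycentre C hCconv μ K hKcl hKconv hμK
      have huX : ∀ x ∈ X, q i (jj C u - jj C x) ≤ α := by
        intro x hx
        apply le_of_forall_pol (q i) hp
        intro f hf
        have hfi : Integrable (fun y => f (jj C y)) μ :=
          (jj_cont C f).integrable_of_hasCompactSupport (HasCompactSupport.of_compactSpace _)
        have e : f (jj C u - jj C x) = ∫ y, f (jj C y - jj C x) ∂μ := by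
          simp only [map_sub]
          rw [integral_sub hfi (integrable_const _), hu f]
          simp
        rw [e]
        refine (abs_integral_le_integral_abs).trans ?_
        have h1 := hα1 x hx {f} (by simpa using hf)
        rw [phi, ← hμ3] at h1
        refine le_trans ?_ h1
        apply integral_mono
        · have : Continuous fun y => |f (jj C y - jj C x)| := by
            simp only [map_sub]
            exact ((jj_cont C f).sub continuous_const).abs
          exact this.integrable_of_hasCompactSupport (HasCompactSupport.of_compactSpace _)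
        · exact (ContinuousMap.continuous _).integrable_of_hasCompactSupport
            (HasCompactSupport.of_compactSpace _)
        · intro y
          rw [DD_curry_apply]
          exact abs_le_pF (Finset.mem_singleton_self f) _
      let K' : Set C := K ∩ ⋂ x ∈ X, {k | q i (jj C k - jj C x) ≤ α}
      have hK' : K' = K := by
        refine hKmin.eq_of_subset ⟨?_, ?_, ?_, ?_⟩ inter_subset_left
        · apply hKcl.inter
          apply isClosed_biInter
          intro x _
          exact isClosed_ball C (q i) hp α (jj C x)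
        · refine ⟨u, huK, ?_⟩
          simp only [mem_iInter, mem_ofPred_eq]
          exact huX
        · rintro s k ⟨hk, hk'⟩
          refine ⟨hKinv s k hk, ?_⟩
          simp only [mem_iInter, mem_ofPred_eq] at hk' ⊢
          intro x hx
          obtain ⟨x', hx', rfl⟩ := H.surj s x hx
          exact (hne' i s k x').trans (hk' x' hx')
        · rintro k ⟨hk, hk'⟩ l ⟨hl, hl'⟩ a b ha hb hab z hz
          refine ⟨hKconv k hk l hl a b ha hb hab z hz, ?_⟩
          simp only [mem_iInter, mem_ofPred_eq] at hk' hl' ⊢
          intro x hx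
          have e : jj C z - jj C x = a • (jj C k - jj C x) + b • (jj C l - jj C x) := by
            have e1 : jj C z = a • jj C k + b • jj C l := by
              rw [jj, hz]; simp [jj]
            have e2 : jj C x = a • jj C x + b • jj C x := by
              rw [← add_smul, hab, one_smul]
            rw [e1, smul_sub, smul_sub]
            nth_rewrite 1 [e2]
            abel
          rw [e]
          refine (map_add_le_add _ _ _).trans ?_
          rw [map_smul_eq_mul, map_smul_eq_mul, Real.norm_eq_abs, Real.norm_eq_abs,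
            abs_of_nonneg ha, abs_of_nonneg hb]
          have h1 := hk' x hx
          have h2 := hl' x hx
          calc a * q i (jj C k - jj C x) + b * q i (jj C l - jj C x) ≤ a * α + b * α := by
                gcongr
            _ = α := by rw [← add_mul, hab, one_mul]
      intro x hx y hy
      have hy' : y ∈ K' := by rw [hK']; exact hXK hy
      have := hy'.2
      simp only [mem_iInter, mem_ofPred_eq] at this
      exact this x hx
    have hRle : sSup R ≤ α := by
      apply csSup_le (s := R) ⟨_, x₀, hx₀, x₀, hx₀, rfl⟩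
      rintro r ⟨x, hx, y, hy, rfl⟩
      exact hle x hx y hy
    have hR0 : sSup R ≤ 0 := by
      by_contra hcon
      have hpos : 0 < sSup R := not_le.1 hcon
      have := alpha_lt C H (q i) hp (sSup R) hpos hd α hα2
      linarith
    intro x hx y hy
    exact le_antisymm ((hd y hy x hx).trans hR0) (apply_nonneg _ _)
  refine ⟨x₀, fun s => ?_⟩
  apply jj_inj C
  by_contra hcon
  obtain ⟨i, hi⟩ := hq.separating_of_T1 (jj C (T s x₀) - jj C x₀) (sub_ne_zero.2 hcon)
  exact hi (hzero i _ (hXinv s x₀ hx₀) x₀ hx₀)

end Pool.Agent.Q193.WF
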