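import Pool.Agent.Q193.WF.Wap

/-!
# Tools: Hahn-Banach for seminorms, bounded weakly compact sets, measures, barycentres, Zorn
-/

open Set Filter Topology MeasureTheory
open scoped NNReal CompactlySupported

namespace Pool.Agent.Q193.WF

section HB

variable {E : Type*} [AddCommGroup E] [Module ℝ E] [TopologicalSpace E] [IsTopologicalAddGroup E]
  [ContinuousSMul ℝ E]

/-- functionals dominated by `p` -/
def Pol (p : Seminorm ℝ E) : Set (E →L[ℝ] ℝ) := {f | ∀ v, |f v| ≤ p v}

theorem exists_pol (p : Seminorm ℝ E) (hp : Continuous p) (v : E) :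
    ∃ f ∈ Pol p, f v = p v := by
  have hN : ∀ c : ℝ, 0 < c → ∀ x, p (c • x) = c * p x := by
    intro c hc x
    rw [map_smul_eq_mul, Real.norm_eq_abs, abs_of_pos hc]
  have main : ∃ g : E →ₗ[ℝ] ℝ, g v = p v ∧ ∀ x, g x ≤ p x := by
    by_cases hv : v = 0
    · exact ⟨0, by simp [hv], fun x => by simp⟩
    obtain ⟨g, hg1, hg2⟩ := exists_extension_of_le_sublinear
      (LinearPMap.mkSpanSingleton v (p v) hv) p hN (map_add_le_add p) (by
        rintro ⟨x, hx⟩
        obtain ⟨c, rfl⟩ := Submodule.mem_span_singleton.1 hx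
        have e : (LinearPMap.mkSpanSingleton v (p v) hv) ⟨c • v, hx⟩ = c • p v :=
          LinearPMap.mkSpanSingleton'_apply v (p v) _ c hx
        rw [e, smul_eq_mul]
        change _ ≤ p (c • v)
        rcases le_total 0 c with hc | hc
        · rw [map_smul_eq_mul, Real.norm_eq_abs, abs_of_nonneg hc]
        · have h1 : c * p v ≤ 0 := mul_nonpos_of_nonpos_of_nonneg hc (apply_nonneg p v)
          exact h1.trans (apply_nonneg p _))
    refine ⟨g, ?_, hg2⟩
    have h1 : (1 : ℝ) • v ∈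
        (LinearPMap.mkSpanSingleton v (p v) hv : E →ₗ.[ℝ] ℝ).domain :=
      Submodule.smul_mem _ _ (Submodule.mem_span_singleton_self v)
    have h2 := hg1 ⟨(1 : ℝ) • v, h1⟩
    have h3 : (LinearPMap.mkSpanSingleton v (p v) hv : E →ₗ.[ℝ] ℝ) ⟨(1 : ℝ) • v, h1⟩ =
        (1 : ℝ) • p v :=
      LinearPMap.mkSpanSingleton'_apply v (p v) _ (1 : ℝ) h1
    rw [h3] at h2
    simpa using h2
  obtain ⟨g, hg1, hg2⟩ := main
  have habs : ∀ x, |g x| ≤ p x := by
    intro x
    rw [abs_le]
    refine ⟨?_, hg2 x⟩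
    have := hg2 (-x)
    rw [map_neg, map_neg_eq_map] at this
    linarith
  have hc : Continuous g := by
    apply continuous_of_continuousAt_zero g
    rw [ContinuousAt, map_zero]
    have h0 : Tendsto p (𝓝 0) (𝓝 0) := by
      have := hp.tendsto 0
      simpa using this
    rw [tendsto_zero_iff_abs_tendsto_zero]
    exact squeeze_zero (fun x => abs_nonneg _) habs h0
  exact ⟨⟨g, hc⟩, habs, hg1⟩

theorem le_of_forall_pol (p : Seminorm ℝ E) (hp : Continuous p) (v : E) (c : ℝ)
    (h : ∀ f ∈ Pol p, |f v| ≤ c) : p v ≤ c := by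
  obtain ⟨f, hf, hfv⟩ := exists_pol p hp v
  rw [← hfv]
  exact (le_abs_self _).trans (h f hf)

end HB

section zorn

variable {Y : Type*} [TopologicalSpace Y] [CompactSpace Y]

theorem exists_minimal' (P : Set Y → Prop)
    (hP : ∀ c : Set (Set Y), c.Nonempty → (∀ s ∈ c, P s) → P (⋂₀ c)) (K₀ : Set Y)
    (h1 : IsClosed K₀) (h2 : K₀.Nonempty) (h3 : P K₀) :
    ∃ K ⊆ K₀, Minimal (· ∈ {K : Set Y | IsClosed K ∧ K.Nonempty ∧ P K}) K := by
  refine zorn_superset_nonempty {K : Set Y | IsClosed K ∧ K.Nonempty ∧ P K} ?_ K₀ ⟨h1, h2, h3⟩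
  intro c hc hch hcne
  have : Nonempty c := hcne.to_subtype
  refine ⟨⋂₀ c, ⟨isClosed_sInter fun s hs => (hc hs).1, ?_, hP c hcne fun s hs => (hc hs).2.2⟩,
    fun s hs => sInter_subset_of_mem hs⟩
  apply IsCompact.nonempty_sInter_of_directed_nonempty_isCompact_isClosed
  · intro a ha b hb
    rcases hch.total ha hb with h | h
    · exact ⟨a, ha, subset_rfl, h⟩
    · exact ⟨b, hb, h, subset_rfl⟩
  · exact fun U hU => (hc hU).2.1
  · exact fun U hU => (hc hU).1.isCompact
  · exact fun U hU => (hc hU).1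

end zorn

section meas

variable {Y : Type*} [TopologicalSpace Y] [CompactSpace Y] [T2Space Y] [MeasurableSpace Y]
  [BorelSpace Y]

theorem exists_measure_pos (Λ : C(Y, ℝ) →ₗ[ℝ] ℝ) (hpos : ∀ h : C(Y, ℝ), (∀ y, 0 ≤ h y) → 0 ≤ Λ h)
    (hone : Λ 1 = 1) : ∃ μ : Measure Y, IsProbabilityMeasure μ ∧ μ.Regular ∧
      ∀ h : C(Y, ℝ), ∫ y, h y ∂μ = Λ h := by
  let Λc : C_c(Y, ℝ) →ₗ[ℝ] ℝ :=
    { toFun := fun f => Λ f.toContinuousMap
      map_add' := fun f g => map_add Λ f.toContinuousMap g.toContinuousMap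
      map_smul' := fun c f => map_smul Λ c f.toContinuousMap }
  let Λp : C_c(Y, ℝ) →ₚ[ℝ] ℝ := PositiveLinearMap.mk₀ Λc (fun f hf => hpos _ (fun y => hf y))
  have key : ∀ h : C(Y, ℝ), ∫ y, h y ∂(RealRMK.rieszMeasure Λp) = Λ h := fun h =>
    RealRMK.integral_rieszMeasure Λp ⟨h, HasCompactSupport.of_compactSpace _⟩
  refine ⟨RealRMK.rieszMeasure Λp, ?_, inferInstance, key⟩
  have h1 := key 1
  rw [hone] at h1
  simp only [ContinuousMap.one_apply, integral_const, smul_eq_mul, mul_one] at h1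
  constructor
  have h2 : (RealRMK.rieszMeasure Λp).real univ = 1 := h1
  rw [measureReal_def] at h2
  rw [← ENNReal.ofReal_toReal (measure_ne_top (RealRMK.rieszMeasure Λp) univ), h2]
  simp

/-- A closed set on which the functional is concentrated has full measure. -/
theorem measure_compl_eq_zero (Λ : C(Y, ℝ) →ₗ[ℝ] ℝ) (μ : Measure Y) [μ.Regular]
    [IsProbabilityMeasure μ]
    (hμ : ∀ h : C(Y, ℝ), ∫ y, h y ∂μ = Λ h) (X : Set Y) (hX : IsClosed X)
    (hΛ : ∀ h : C(Y, ℝ), (∀ y ∈ X, h y = 0) → Λ h = 0) : μ Xᶜ = 0 := by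
  rw [hX.isOpen_compl.measure_eq_iSup_isCompact]
  simp only [ENNReal.iSup_eq_zero]
  intro K hK hKc
  obtain ⟨h, h0, h1, h01⟩ := exists_continuous_zero_one_of_isClosed hX hKc.isClosed
    (disjoint_left.2 fun y hy hy' => hK hy' hy)
  have e := hμ h
  rw [hΛ h (fun y hy => h0 hy)] at e
  have hle : μ.real K ≤ ∫ y, h y ∂μ := by
    rw [← integral_indicator_one hKc.measurableSet]
    apply integral_mono
    · exact (integrable_const (1 : ℝ)).indicator hKc.measurableSet
    · exact h.continuous.integrable_of_hasCompactSupport (HasCompactSupport.of_compactSpace _)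
    · intro y
      by_cases hy : y ∈ K
      · simp only [indicator_of_mem hy, Pi.one_apply]
        exact (h1 hy).ge
      · simp only [indicator_of_notMem hy]
        exact (h01 y).1
  rw [e] at hle
  have h3 : μ.real K = 0 := le_antisymm hle measureReal_nonneg
  rw [measureReal_def, ENNReal.toReal_eq_zero_iff] at h3
  rcases h3 with h3 | h3
  · exact h3
  · exact absurd h3 (measure_ne_top μ K)

end meas

end Pool.Agent.Q193.WF
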