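import Pool.Agent.Q193.WF.Groth

/-!
# Weakly almost periodic functions on a semitopological semigroup
-/

open Set Filter Topology
open scoped BoundedContinuousFunction

namespace Pool.Agent.Q193.WF

/-- A semitopological semigroup: a semigroup with a topology (Hausdorffness is asked separately)
in which the multiplication is separately continuous. -/
class SemitopSemigroup (S : Type*) [Semigroup S] [TopologicalSpace S] : Prop where
  mulLeft : ∀ a : S, Continuous fun t => a * t
  mulRight : ∀ a : S, Continuous fun t => t * a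

variable {S : Type*} [Semigroup S] [TopologicalSpace S] [SemitopSemigroup S]

/-- The left translate `ℓ_a f (t) = f (a t)`. -/
noncomputable def lt (a : S) (f : S →ᵇ ℝ) : S →ᵇ ℝ :=
  f.compContinuous ⟨fun t => a * t, SemitopSemigroup.mulLeft a⟩

@[simp] theorem lt_apply (a t : S) (f : S →ᵇ ℝ) : lt a f t = f (a * t) := rfl

/-- `f` is weakly almost periodic: its orbit `{ℓ_s f : s ∈ S}` is relatively weakly compact in
`C_b(S)`. -/
def IsWAP (f : S →ᵇ ℝ) : Prop :=
  IsCompact (closure (toWeakSpace ℝ (S →ᵇ ℝ) '' (Set.range fun s => lt s f)))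

theorem isWAP_of_subset {f : S →ᵇ ℝ} {K : Set (WeakSpace ℝ (S →ᵇ ℝ))} (hK : IsCompact K)
    (h : ∀ s, toWeakSpace ℝ (S →ᵇ ℝ) (lt s f) ∈ K) : IsWAP f := by
  refine hK.closure_of_subset ?_
  rintro _ ⟨_, ⟨s, rfl⟩, rfl⟩
  exact h s

variable (S) in
/-- The space `WAP(S)` of weakly almost periodic functions. -/
noncomputable def WAP : Submodule ℝ (S →ᵇ ℝ) where
  carrier := {f | IsWAP f}
  zero_mem' := by
    refine isWAP_of_subset (isCompact_singleton (x := toWeakSpace ℝ (S →ᵇ ℝ) 0)) ?_
    intro s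
    have : lt s (0 : S →ᵇ ℝ) = 0 := by ext; simp
    rw [this]
    exact mem_singleton _
  add_mem' := by
    intro f g hf hg
    refine isWAP_of_subset (hf.add hg) ?_
    intro s
    have : lt s (f + g) = lt s f + lt s g := by ext; simp
    rw [this, map_add]
    exact Set.add_mem_add (subset_closure ⟨_, ⟨s, rfl⟩, rfl⟩) (subset_closure ⟨_, ⟨s, rfl⟩, rfl⟩)
  smul_mem' := by
    intro c f hf
    refine isWAP_of_subset (hf.image (continuous_const_smul c)) ?_
    intro s
    have : lt s (c • f) = c • lt s f := by ext; simp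
    rw [this, map_smul]
    exact ⟨_, subset_closure ⟨_, ⟨s, rfl⟩, rfl⟩, rfl⟩

theorem lt_mem_WAP (s : S) {f : S →ᵇ ℝ} (hf : f ∈ WAP S) : lt s f ∈ WAP S := by
  refine isWAP_of_subset (K := _) hf ?_
  intro t
  have : lt t (lt s f) = lt (s * t) f := by ext x; simp [mul_assoc]
  rw [this]
  exact subset_closure ⟨_, ⟨_, rfl⟩, rfl⟩

theorem one_mem_WAP : (1 : S →ᵇ ℝ) ∈ WAP S := by
  refine isWAP_of_subset (isCompact_singleton (x := toWeakSpace ℝ (S →ᵇ ℝ) 1)) ?_
  intro s
  have : lt s (1 : S →ᵇ ℝ) = 1 := by ext; simp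
  rw [this]
  exact mem_singleton _

/-- A left invariant mean on `WAP(S)`. -/
structure IsLIM (m : WAP S →ₗ[ℝ] ℝ) : Prop where
  nonneg : ∀ f : WAP S, (∀ t, 0 ≤ (f : S →ᵇ ℝ) t) → 0 ≤ m f
  one : m ⟨1, one_mem_WAP⟩ = 1
  inv : ∀ (s : S) (f : WAP S), m ⟨lt s f, lt_mem_WAP s f.2⟩ = m f

/-! ### orbit functions of representations on a compact space -/

section orb

variable {Y : Type*} [TopologicalSpace Y] [CompactSpace Y] [T2Space Y] (T : S → Y → Y)
  (hTm : ∀ s t y, T (s * t) y = T s (T t y)) (hT1 : ∀ s, Continuous (T s))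
  (hT2 : ∀ y, Continuous fun s => T s y) (hT3 : ∀ g ∈ closure (range T), Continuous g)

/-- the orbit function `s ↦ h (T s x₀)` -/
noncomputable def orb (hT2 : ∀ y, Continuous fun s => T s y) (x₀ : Y) :
    C(Y, ℝ) →L[ℝ] (S →ᵇ ℝ) :=
  LinearMap.mkContinuous
    { toFun := fun h => (BoundedContinuousFunction.mkOfCompact h).compContinuous
        ⟨fun s => T s x₀, hT2 x₀⟩
      map_add' := fun _ _ => rfl
      map_smul' := fun _ _ => rfl } 1 (by
    intro h
    rw [one_mul, BoundedContinuousFunction.norm_le (norm_nonneg _)]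
    intro s
    exact h.norm_coe_le_norm _)

omit [SemitopSemigroup S] [Semigroup S] [T2Space Y] in
@[simp] theorem orb_apply (x₀ : Y) (h : C(Y, ℝ)) (s : S) : orb T hT2 x₀ h s = h (T s x₀) := rfl

include hTm hT3 in
theorem orb_mem_WAP (x₀ : Y) (h : C(Y, ℝ)) : orb T hT2 x₀ h ∈ WAP S := by
  let G := closure (range T)
  have : CompactSpace G := isCompact_iff_compactSpace.1 isClosed_closure.isCompact
  let F : G → C(Y, ℝ) := fun g => ⟨fun y => h (g.1 y), h.continuous.comp (hT3 g.1 g.2)⟩
  have hF : ∀ x, Continuous fun g => F g x := by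
    intro x
    exact h.continuous.comp ((continuous_apply x).comp continuous_subtype_val)
  have hcont : Continuous fun g : G => toWeakSpace ℝ (S →ᵇ ℝ) (orb T hT2 x₀ (F g)) := by
    refine WeakBilin.continuous_of_continuous_eval _ ?_
    intro L
    exact continuous_functional F hF ‖h‖ (fun g x => h.norm_coe_le_norm _)
      (L.comp (orb T hT2 x₀))
  refine isWAP_of_subset (isCompact_range hcont) ?_
  intro s
  refine ⟨⟨T s, subset_closure ⟨s, rfl⟩⟩, ?_⟩
  refine congrArg (toWeakSpace ℝ (S →ᵇ ℝ)) ?_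
  ext t
  simp [F, hTm]

end orb

end Pool.Agent.Q193.WF
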