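import Pool.Agent.Q193.WF.Core

/-!
# Weakly compact convex sets
-/

open Set Filter Topology MeasureTheory
open scoped NNReal

namespace Pool.Agent.Q193.WF

variable {E : Type*} [AddCommGroup E] [Module ℝ E] [TopologicalSpace E] [IsTopologicalAddGroup E]
  [ContinuousSMul ℝ E]

/-- The points of a subset of the weak space as vectors of `E`. -/
noncomputable def jj (C : Set (WeakSpace ℝ E)) (y : C) : E := (toWeakSpace ℝ E).symm y.1

variable (C : Set (WeakSpace ℝ E))

theorem jj_cont (f : E →L[ℝ] ℝ) : Continuous fun y : C => f (jj C y) :=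
  (WeakBilin.eval_continuous (topDualPairing ℝ E).flip f).comp continuous_subtype_val

omit [IsTopologicalAddGroup E] [ContinuousSMul ℝ E] in
theorem jj_inj : Function.Injective (jj C) := by
  intro x y h
  exact Subtype.ext ((toWeakSpace ℝ E).symm.injective h)

omit [IsTopologicalAddGroup E] [ContinuousSMul ℝ E] in
theorem toWeak_jj (y : C) : toWeakSpace ℝ E (jj C y) = y.1 := by
  simp [jj]

theorem isClosed_ball (p : Seminorm ℝ E) (hp : Continuous p) (r : ℝ) (v : E) :
    IsClosed {y : C | p (jj C y - v) ≤ r} := by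
  have : {y : C | p (jj C y - v) ≤ r} = ⋂ f ∈ Pol p, {y : C | |f (jj C y - v)| ≤ r} := by
    ext y
    simp only [mem_ofPred_eq, mem_iInter]
    exact ⟨fun h f hf => (hf _).trans h, fun h => le_of_forall_pol p hp _ _ h⟩
  rw [this]
  apply isClosed_biInter
  intro f _
  simp only [map_sub]
  exact isClosed_le (((jj_cont C f).sub continuous_const).abs) continuous_const

/-- A convex weakly compact set is bounded for every continuous seminorm. -/
theorem bounded [T2Space C] (hC : IsCompact C) (hconv : Convex ℝ C) (p : Seminorm ℝ E)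
    (hp : Continuous p) : ∃ M, ∀ y : C, p (jj C y) ≤ M := by
  have : CompactSpace C := isCompact_iff_compactSpace.1 hC
  by_cases hne : Nonempty C
  swap
  · exact ⟨0, fun y => (hne ⟨y⟩).elim⟩
  obtain ⟨n, y₀, hy₀⟩ := nonempty_interior_of_iUnion_of_closed
    (f := fun n : ℕ => {y : C | p (jj C y - 0) ≤ n}) (fun n => isClosed_ball C p hp n 0) (by
      rw [eq_univ_iff_forall]
      intro y
      obtain ⟨n, hn⟩ := exists_nat_ge (p (jj C y - 0))
      exact mem_iUnion.2 ⟨n, hn⟩)
  let Ψ : unitInterval × C → C := fun z => ⟨(1 - z.1.1) • y₀.1 + z.1.1 • z.2.1,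
    hconv y₀.2 z.2.2 (by linarith [z.1.2.2]) z.1.2.1 (by ring)⟩
  have hΨ : Continuous Ψ := by
    refine Continuous.subtype_mk ?_ _
    fun_prop
  have hΨ0 : ∀ y, Ψ (0, y) = y₀ := by
    intro y
    apply Subtype.ext
    simp [Ψ]
  have hev : ∀ᶠ l in 𝓝 (0 : unitInterval), ∀ y ∈ (univ : Set C),
      Ψ (l, y) ∈ interior {y : C | p (jj C y - 0) ≤ n} := by
    apply isCompact_univ.eventually_forall_of_forall_eventually
    intro y _
    have := hΨ.tendsto ((0 : unitInterval), y)
    rw [hΨ0] at this
    exact this.eventually (isOpen_interior.mem_nhds hy₀)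
  have hseq : Tendsto (fun k : ℕ => (⟨1 / ((k : ℝ) + 1), by
      constructor
      · positivity
      · rw [div_le_one (by positivity)]; linarith [Nat.cast_nonneg (α := ℝ) k]⟩ : unitInterval))
      atTop (𝓝 0) := by
    rw [tendsto_subtype_rng]
    exact tendsto_one_div_add_atTop_nhds_zero_nat
  obtain ⟨k, hk⟩ := (hseq.eventually hev).exists
  refine ⟨((k : ℝ) + 1) * (n + p (jj C y₀)), ?_⟩
  intro y
  have h1 := interior_subset (hk y (mem_univ y))
  simp only [mem_ofPred_eq, sub_zero] at h1
  set l : ℝ := 1 / ((k : ℝ) + 1) with hl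
  have hlpos : 0 < l := by positivity
  have h2 : l • jj C y = jj C (Ψ (⟨l, by
      constructor
      · positivity
      · rw [hl, div_le_one (by positivity)]; linarith [Nat.cast_nonneg (α := ℝ) k]⟩, y)) -
        (1 - l) • jj C y₀ := by
    simp only [Ψ, jj, map_add, map_smul]
    abel
  have h3 : l * p (jj C y) ≤ n + p (jj C y₀) := by
    have h4 : p (l • jj C y) = l * p (jj C y) := by
      rw [map_smul_eq_mul, Real.norm_eq_abs, abs_of_pos hlpos]
    rw [← h4, h2]
    refine (map_sub_le_add p _ _).trans (add_le_add h1 ?_)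
    rw [map_smul_eq_mul, Real.norm_eq_abs]
    have h5 : |1 - l| ≤ 1 := by
      rw [abs_le]
      constructor
      · have : l ≤ 1 := by
          rw [hl, div_le_one (by positivity)]; linarith [Nat.cast_nonneg (α := ℝ) k]
        linarith
      · linarith
    calc |1 - l| * p (jj C y₀) ≤ 1 * p (jj C y₀) := by
          gcongr
      _ = p (jj C y₀) := one_mul _
  have h6 : p (jj C y) = ((k : ℝ) + 1) * (l * p (jj C y)) := by
    rw [hl]; field_simp
  rw [h6]
  gcongr

/-- A countable set of vectors approximating a weakly compact set for countably many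
functionals. -/
theorem countable_net [LocallyConvexSpace ℝ E] [CompactSpace C] [T2Space C] (p : Seminorm ℝ E)
    (hp : Continuous p) (X : Set C) (F₀ : Set (E →L[ℝ] ℝ)) (hF₀ : F₀.Countable)
    (hF₀p : F₀ ⊆ Pol p) (δ : ℝ) (hδ : 0 < δ) :
    ∃ c : Set E, c.Countable ∧ ∀ y ∈ X, ∃ z ∈ c, ∀ f ∈ F₀, |f (jj C y - z)| ≤ δ := by
  have : Countable F₀ := hF₀.to_subtype
  let π : C → (F₀ → ℝ) := fun y f => f.1 (jj C y)
  have hπ : Continuous π := continuous_pi fun f => jj_cont C f.1
  obtain ⟨s, hs, hsd⟩ := TopologicalSpace.exists_countable_dense (π '' X)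
  choose g hg1 hg2 using fun v : π '' X => v.2
  let D : Set C := g '' s
  have hD : D.Countable := hs.image g
  obtain ⟨c, hc, hcD⟩ := (TopologicalSpace.IsSeparable.span (R := ℝ)
    (hD.image (jj C)).isSeparable)
  refine ⟨c, hc, ?_⟩
  intro y hy
  have h1 : π y ∈ π '' closure D := by
    have hcl : IsClosed (π '' closure D) := (isClosed_closure.isCompact.image hπ).isClosed
    have h2 : (⟨π y, ⟨y, hy, rfl⟩⟩ : π '' X) ∈ closure s := hsd _
    rw [closure_subtype] at h2
    refine closure_minimal ?_ hcl h2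
    rintro _ ⟨v, hv, rfl⟩
    exact ⟨g v, subset_closure ⟨v, hv, rfl⟩, hg2 v⟩
  obtain ⟨y', hy', hyy⟩ := h1
  have h3 : y'.1 ∈ closure (toWeakSpace ℝ E '' (convexHull ℝ (jj C '' D))) := by
    have h4 : y'.1 ∈ closure (Subtype.val '' D) :=
      image_closure_subset_closure_image continuous_subtype_val ⟨y', hy', rfl⟩
    refine closure_mono ?_ h4
    rintro _ ⟨d, hd, rfl⟩
    exact ⟨jj C d, subset_convexHull ℝ _ ⟨d, hd, rfl⟩, toWeak_jj C d⟩
  rw [← Convex.toWeakSpace_closure (𝕜 := ℝ) (convex_convexHull ℝ _)] at h3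
  obtain ⟨w, hw, hwy⟩ := h3
  have hwj : w = jj C y' := by
    rw [jj, ← hwy]; simp
  rw [hwj] at hw
  have h5 : jj C y' ∈ closure c := by
    have h6 : convexHull ℝ (jj C '' D) ⊆ closure c := by
      refine subset_trans ?_ hcD
      exact convexHull_min Submodule.subset_span (Submodule.convex _)
    exact closure_minimal h6 isClosed_closure hw
  have hop : IsOpen {v : E | p (jj C y' - v) < δ} :=
    isOpen_lt (hp.comp (continuous_const.sub continuous_id)) continuous_const
  obtain ⟨z, hz, hzc⟩ := mem_closure_iff.1 h5 _ hop (by simpa using hδ)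
  refine ⟨z, hzc, ?_⟩
  intro f hf
  have h7 : f (jj C y) = f (jj C y') := by
    have := congrFun hyy ⟨f, hf⟩
    exact this.symm
  rw [map_sub, h7, ← map_sub]
  exact (hF₀p hf _).trans hz.le

end Pool.Agent.Q193.WF
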